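import Pool.Agent.H37.CTP.Stmts
import Pool.Agent.H63.CNX.XRD

/-! # Board `ctp`, row XT3 (after `XT2`, helper22) -/

set_option autoImplicit false

namespace Pool.CND

open Finset Polynomial

namespace XT3Aux

variable {k : Type} [Field k] [IsAlgClosed k] [CharP k 2]

theorem der_red (r : Polynomial k) : derivative (r ^ 2 - r) = - derivative r := by
  have h : (Polynomial.C ((2 : ℕ) : k) : Polynomial k) = 0 := by
    rw [CharP.cast_eq_zero k 2, Polynomial.C_0]
  rw [derivative_sub, derivative_pow, h, zero_mul, zero_mul, zero_sub]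

theorem deg_red (r : Polynomial k) (h1 : 1 ≤ r.natDegree) :
    (r ^ 2 - r).natDegree = 2 * r.natDegree := by
  have : (r ^ 2 - r).natDegree = (r ^ 2).natDegree := by
    apply Polynomial.natDegree_sub_eq_left_of_natDegree_lt
    rw [Polynomial.natDegree_pow]
    omega
  rw [this, Polynomial.natDegree_pow]

/-- the reduced degree is read off the derivative -/
theorem red (f : Polynomial k) (N : ℕ) (h1 : (derivative f).coeff N ≠ 0)
    (h2 : ∀ j, N < j → (derivative f).coeff j = 0) (h3 : f.natDegree ≤ 2 * N + 1) :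
    ∃ r : Polynomial k, (f - (r ^ 2 - r)).natDegree = N + 1 := by
  have hrc : ∀ r : Polynomial k, 2 * r.natDegree ≤ f.natDegree → ∀ j, N ≤ j →
      (derivative r).coeff j = 0 := by
    intro r hr j hj
    rw [coeff_derivative, coeff_eq_zero_of_natDegree_lt (by omega), zero_mul]
  rcases xrd_thm 2 k f Nat.prime_two with ⟨r, hr⟩ | ⟨D, r, hD1, hDp, hD⟩
  · exfalso
    have h4 : 2 * r.natDegree ≤ f.natDegree := by
      rcases Nat.eq_zero_or_pos r.natDegree with h0 | h0
      · rw [h0, mul_zero]
        exact Nat.zero_le _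
      · rw [hr, deg_red r h0]
    apply h1
    rw [hr, der_red, coeff_neg, hrc r h4 _ le_rfl, neg_zero]
  · refine ⟨r, ?_⟩
    have h4 : 2 * r.natDegree ≤ f.natDegree := by
      by_contra hcon
      push Not at hcon
      have h0 : 1 ≤ r.natDegree := by
        rcases Nat.eq_zero_or_pos r.natDegree with h0 | h0
        · rw [h0, mul_zero] at hcon
          omega
        · exact h0
      have h5 := deg_red r h0
      have h6 : (f - (r ^ 2 - r)).natDegree = (r ^ 2 - r).natDegree :=
        natDegree_sub_eq_right_of_natDegree_lt (by rw [h5]; exact hcon)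
      rw [h6, h5] at hD
      exact hDp ⟨_, hD.symm⟩
    have hr := hrc r h4
    have hc1 : (derivative (f - (r ^ 2 - r))).coeff N ≠ 0 := by
      rw [derivative_sub, der_red, coeff_sub, coeff_neg, hr _ le_rfl, neg_zero, sub_zero]
      exact h1
    have hc2 : ∀ j, N < j → (derivative (f - (r ^ 2 - r))).coeff j = 0 := by
      intro j hj
      rw [derivative_sub, der_red, coeff_sub, coeff_neg, hr _ hj.le, h2 j hj, neg_zero, sub_zero]
    have hlow : N + 1 ≤ (f - (r ^ 2 - r)).natDegree := by
      by_contra hcon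
      push Not at hcon
      rw [coeff_derivative, coeff_eq_zero_of_natDegree_lt hcon, zero_mul] at hc1
      exact hc1 rfl
    refine le_antisymm ?_ hlow
    by_contra hcon
    push Not at hcon
    have hDk : (D : k) ≠ 0 := fun h0 => hDp ((CharP.cast_eq_zero_iff k 2 D).1 h0)
    have h5 := hc2 (D - 1) (by rw [hD] at hcon; omega)
    rw [coeff_derivative] at h5
    have h6 : D - 1 + 1 = D := by omega
    have h7 : ((D - 1 : ℕ) : k) + 1 = (D : k) := by
      have h10 := congrArg (fun i : ℕ => (i : k)) h6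
      simpa using h10
    rw [h7, h6] at h5
    have h8 : (f - (r ^ 2 - r)).coeff D ≠ 0 := by
      rw [← hD]
      have h9 : f - (r ^ 2 - r) ≠ 0 := by
        intro h0
        rw [h0, natDegree_zero] at hD
        omega
      exact leadingCoeff_ne_zero.mpr h9
    exact (mul_ne_zero h8 hDk) h5

end XT3Aux

open XT3Aux in
theorem xt3_thm : S_XT3 := by
  intro d k _ _ _ m α β g A hd hA hm hm2
  have hQ : 4 ≤ 2 ^ d := by
    calc 4 = 2 ^ 2 := by norm_num
      _ ≤ 2 ^ d := Nat.pow_le_pow_right (by norm_num) hd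
  have hmon : A.Monic := by
    rw [hA]
    refine Polynomial.monic_X_pow_add ?_
    rw [degree_X]
    exact_mod_cast (by omega : 1 < 2 ^ d)
  have hdeg : A.natDegree = 2 ^ d := by
    rw [hA]
    apply Polynomial.natDegree_eq_of_degree_eq_some
    rw [Polynomial.degree_add_eq_left_of_degree_lt, Polynomial.degree_X_pow]
    rw [Polynomial.degree_X_pow, degree_X]
    exact_mod_cast (by omega : 1 < 2 ^ d)
  have h2k : ((2 : ℕ) : k) = 0 := CharP.cast_eq_zero k 2
  have hder : derivative A = 1 := by
    rw [hA, derivative_add, derivative_X_pow, derivative_X]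
    have h0 : ((2 ^ d : ℕ) : k) = 0 := by
      rw [Nat.cast_pow, h2k, zero_pow (by omega)]
    rw [h0, C_0, zero_mul, zero_add]
  have hmk : (m : k) = 1 := by
    obtain ⟨n, rfl⟩ : ∃ n, m = 2 * n + 1 := ⟨m / 2, by omega⟩
    push_cast
    have h0 : (2 : k) = 0 := by exact_mod_cast h2k
    rw [h0, zero_mul, zero_add]
  obtain ⟨n, rfl⟩ : ∃ n, m = n + 1 := ⟨m - 1, by omega⟩
  rw [Nat.add_sub_cancel]
  have hAn : (A ^ n).natDegree = 2 ^ d * n := by
    rw [hmon.natDegree_pow, hdeg, mul_comm]
  have hAn1 : (A ^ (n + 1)).natDegree = 2 ^ d * (n + 1) := by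
    rw [hmon.natDegree_pow, hdeg, mul_comm]
  have hcn : (A ^ n).coeff (2 ^ d * n) = 1 := by
    have := (hmon.pow n).coeff_natDegree
    rwa [hAn] at this
  have hder1 : derivative (A ^ (n + 1)) = A ^ n := by
    rw [derivative_pow, hder, hmk, C_1, one_mul, mul_one, Nat.add_sub_cancel]
  have hderX : derivative (X ^ 2 : Polynomial k) = 0 := by
    rw [derivative_X_pow, h2k, C_0, zero_mul]
  have hn4 : 2 ^ d * 2 ≤ 2 ^ d * n := Nat.mul_le_mul_left _ (by omega)
  have hn5 : 2 ^ d * (n + 1) = 2 ^ d * n + 2 ^ d := by ring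
  refine ⟨fun hβ hg => ?_, fun hβ hα hg => ?_⟩
  · have hf' : derivative (C α * A ^ (n + 1) + C β * (X ^ 2 * A ^ (n + 1)) + g) =
        C α * A ^ n + C β * (X ^ 2 * A ^ n) + derivative g := by
      rw [derivative_add, derivative_add, derivative_C_mul, derivative_C_mul, derivative_mul,
        hder1, hderX, zero_mul, zero_add]
    have hXA : ∀ j, (X ^ 2 * A ^ n).coeff (j + 2) = (A ^ n).coeff j :=
      fun j => coeff_X_pow_mul _ _ _
    have h1 : (derivative (C α * A ^ (n + 1) + C β * (X ^ 2 * A ^ (n + 1)) + g)).coeff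
        (2 ^ d * n + 2) ≠ 0 := by
      rw [hf', coeff_add, coeff_add, coeff_C_mul, coeff_C_mul, hXA, coeff_derivative,
        coeff_eq_zero_of_natDegree_lt (by omega : (A ^ n).natDegree < 2 ^ d * n + 2),
        coeff_eq_zero_of_natDegree_lt (by omega : g.natDegree < 2 ^ d * n + 2 + 1), hcn,
        zero_mul, mul_zero, zero_add, add_zero, mul_one]
      exact hβ
    have h2 : ∀ j, 2 ^ d * n + 2 < j →
        (derivative (C α * A ^ (n + 1) + C β * (X ^ 2 * A ^ (n + 1)) + g)).coeff j = 0 := by
      intro j hj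
      obtain ⟨i, rfl⟩ : ∃ i, j = i + 2 := ⟨j - 2, by omega⟩
      rw [hf', coeff_add, coeff_add, coeff_C_mul, coeff_C_mul, hXA, coeff_derivative,
        coeff_eq_zero_of_natDegree_lt (by omega : (A ^ n).natDegree < i + 2),
        coeff_eq_zero_of_natDegree_lt (by omega : (A ^ n).natDegree < i),
        coeff_eq_zero_of_natDegree_lt (by omega : g.natDegree < i + 2 + 1)]
      ring
    have h3 : (C α * A ^ (n + 1) + C β * (X ^ 2 * A ^ (n + 1)) + g).natDegree ≤
        2 * (2 ^ d * n + 2) + 1 := by
      have a1 : (C α * A ^ (n + 1)).natDegree ≤ 2 * (2 ^ d * n + 2) + 1 := by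
        refine (natDegree_C_mul_le _ _).trans ?_
        rw [hAn1]
        omega
      have a2 : (C β * (X ^ 2 * A ^ (n + 1))).natDegree ≤ 2 * (2 ^ d * n + 2) + 1 := by
        refine (natDegree_C_mul_le _ _).trans (natDegree_mul_le.trans ?_)
        rw [hAn1, natDegree_X_pow]
        omega
      exact (natDegree_add_le _ _).trans (max_le ((natDegree_add_le _ _).trans (max_le a1 a2))
        (by omega))
    exact red _ _ h1 h2 h3
  · have hf' : derivative (C α * A ^ (n + 1) + g) = C α * A ^ n + derivative g := by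
      rw [derivative_add, derivative_C_mul, hder1]
    have h1 : (derivative (C α * A ^ (n + 1) + g)).coeff (2 ^ d * n) ≠ 0 := by
      rw [hf', coeff_add, coeff_C_mul, coeff_derivative,
        coeff_eq_zero_of_natDegree_lt (by omega : g.natDegree < 2 ^ d * n + 1), hcn,
        zero_mul, add_zero, mul_one]
      exact hα
    have h2 : ∀ j, 2 ^ d * n < j → (derivative (C α * A ^ (n + 1) + g)).coeff j = 0 := by
      intro j hj
      rw [hf', coeff_add, coeff_C_mul, coeff_derivative,
        coeff_eq_zero_of_natDegree_lt (by omega : (A ^ n).natDegree < j),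
        coeff_eq_zero_of_natDegree_lt (by omega : g.natDegree < j + 1)]
      ring
    have h3 : (C α * A ^ (n + 1) + g).natDegree ≤ 2 * (2 ^ d * n) + 1 := by
      have a1 : (C α * A ^ (n + 1)).natDegree ≤ 2 * (2 ^ d * n) + 1 := by
        refine (natDegree_C_mul_le _ _).trans ?_
        rw [hAn1]
        omega
      exact (natDegree_add_le _ _).trans (max_le a1 (by omega))
    exact red _ _ h1 h2 h3

end Pool.CND
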